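import Pool.Agent.Helper8_HK.Stmt0

/-! Module VAL of squad HK: values of harmonic cochains on the edges `(π^k, u; 0, 1)`. -/

namespace Pool.Agent.HK.H9

open Polynomial Pool.Agent.HK

section

variable {F : Type} [Field F]

lemma inO_one : InO 0 (1 : Kinf F) := by
  intro i hi
  rw [HahnSeries.coeff_one]
  rw [if_neg (by omega)]

lemma coeff_one_zero : HahnSeries.coeff (1 : Kinf F) 0 = 1 := by
  rw [HahnSeries.coeff_one]
  simp

lemma inO_zero (k : ℤ) : InO k (0 : Kinf F) := by
  intro i _
  simp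

lemma inO_cst (c : F) : InO 0 (cst F c) := by
  intro i hi
  change HahnSeries.coeff (HahnSeries.single 0 c) i = 0
  rw [HahnSeries.coeff_single_of_ne (by omega)]

lemma coeff_cst (c : F) : HahnSeries.coeff (cst F c) 0 = c := by
  change HahnSeries.coeff (HahnSeries.single 0 c) 0 = c
  rw [HahnSeries.coeff_single_same]

lemma inO_mono {k l : ℤ} (h : k ≤ l) {x : Kinf F} (hx : InO l x) : InO k x :=
  fun i hi => hx i (lt_of_lt_of_le hi h)

end

theorem val (hL : LAUStmt) (hM : MTXStmt) : VALStmt := by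
  intro F _ _ R _ φ hφ
  obtain ⟨-, -, -, L4, -, L6, L7, -, -, -, L11, -, -⟩ := hL F
  obtain ⟨M1, -, M3, -, M5, -, -, -, -, -, -, -, -, M14, M15, -, -⟩ := hM F
  have hpk : ∀ k : ℤ, (unif F) ^ k ≠ 0 := fun k => zpow_ne_zero k L6
  -- entries of upper triangular matrices
  have hmul : ∀ a b d a' b' d' : Kinf F, a * d ≠ 0 → a' * d' ≠ 0 →
      mat a b 0 d * mat a' b' 0 d' = mat (a * a') (a * b' + b * d') 0 (d * d') := by
    intro a b d a' b' d' h h'
    rw [M3 a b 0 d a' b' 0 d' (by simpa using h) (by simpa using h')]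
    simp
  -- one in Iwahori
  have hIw : ∀ a b d : Kinf F, InO 0 a → InO 0 b → InO 0 d → HahnSeries.coeff a 0 ≠ 0 →
      HahnSeries.coeff d 0 ≠ 0 → mat a b 0 d ∈ (Iwahori : Set (GLK F)) := by
    intro a b d ha hb hd ha0 hd0
    have han : a ≠ 0 := by
      rintro rfl
      simp at ha0
    have hdn : d ≠ 0 := by
      rintro rfl
      simp at hd0
    obtain ⟨e1, e2, e3, e4⟩ := M1 a b 0 d (by simp [han, hdn])
    refine ⟨?_, ?_, ?_, ?_, ?_, ?_⟩
    · rw [e1]; exact ha
    · rw [e2]; exact hb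
    · rw [e3]; exact inO_zero 1
    · rw [e4]; exact hd
    · rw [e1]; exact ha0
    · rw [e4]; exact hd0
  have h1Iw : (1 : GLK F) ∈ (Iwahori : Set (GLK F)) := by
    rw [← M5]
    exact hIw 1 0 1 inO_one (inO_zero 0) inO_one (by rw [coeff_one_zero]; exact one_ne_zero)
      (by rw [coeff_one_zero]; exact one_ne_zero)
  have hs1 : (scal (1 : Kinf F) : GLK F) = 1 := M5
  have inv1 : ∀ (g : GLK F) (z : Kinf F), z ≠ 0 → φ (g * scal z) = φ g := by
    intro g z hz
    have := hφ.inv g z 1 hz h1Iw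
    rwa [mul_one] at this
  have inv2 : ∀ (g k : GLK F), k ∈ (Iwahori : Set (GLK F)) → φ (g * k) = φ g := by
    intro g k hk
    have := hφ.inv g 1 k one_ne_zero hk
    rwa [hs1, mul_one] at this
  -- (1)
  have P1 : ∀ (g : GLK F) (k : ℤ) (u v : Kinf F), InO k (u - v) →
      φ (g * mat ((unif F) ^ k) u 0 1) = φ (g * mat ((unif F) ^ k) v 0 1) := by
    intro g k u v h
    have hw : InO 0 ((unif F) ^ (-k) * (u - v)) := by
      intro i hi
      rw [L7]
      exact h _ (by omega)
    have e : mat ((unif F) ^ k) u 0 1 =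
        mat ((unif F) ^ k) v 0 1 * mat 1 ((unif F) ^ (-k) * (u - v)) 0 1 := by
      rw [hmul _ _ _ _ _ _ (by simpa using hpk k) (by simp)]
      congr 1
      · ring
      · rw [← mul_assoc, ← zpow_add₀ L6]
        simp
      · ring
    rw [e, ← mul_assoc]
    exact inv2 _ _ (hIw 1 _ 1 inO_one hw inO_one (by rw [coeff_one_zero]; exact one_ne_zero)
      (by rw [coeff_one_zero]; exact one_ne_zero))
  -- (2)
  have P2 : ∀ (g : GLK F) (a b d : Kinf F) (k : ℤ) (e : Kinf F), d ≠ 0 →
      a / d = (unif F) ^ k * e → InO 0 e → HahnSeries.coeff e 0 ≠ 0 →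
      φ (g * mat a b 0 d) = φ (g * mat ((unif F) ^ k) (b / d) 0 1) := by
    intro g a b d k e hd ha he he0
    have hen : e ≠ 0 := by
      rintro rfl
      simp at he0
    have e1 : mat a b 0 d = mat ((unif F) ^ k) (b / d) 0 1 * scal d * mat e 0 0 1 := by
      rw [show (scal d : GLK F) = mat d 0 0 d from rfl]
      rw [hmul _ _ _ _ _ _ (by simpa using hpk k) (mul_ne_zero hd hd)]
      rw [hmul _ _ _ _ _ _ (by
        simp only [one_mul]
        exact mul_ne_zero (mul_ne_zero (hpk k) hd) hd) (by simpa using hen)]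
      congr 1
      · have : a = (unif F) ^ k * e * d := by rw [← ha]; field_simp
        rw [this]; ring
      · field_simp
        ring
      · ring
    rw [e1, ← mul_assoc, ← mul_assoc]
    rw [inv2 _ _ (hIw e 0 1 he (inO_zero 0) inO_one he0
      (by rw [coeff_one_zero]; exact one_ne_zero))]
    exact inv1 _ _ hd
  -- basic vertex relation
  have V : ∀ h : GLK F, ∑ s : F, φ (h * mat (unif F) (cst F s) 0 1) = φ h := by
    intro h
    have h1 := hφ.sum h
    have h2 : ∀ s : F, φ (h * mat (cst F s) 1 1 0) = - φ (h * mat (unif F) (cst F s) 0 1) := by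
      intro s
      rw [← hφ.rev]
      have e : mat (unif F) (cst F s) 0 1 * flipM = mat (cst F s) 1 1 0 * scal (unif F) := by
        rw [show (flipM : GLK F) = mat 0 1 (unif F) 0 from rfl,
          show (scal (unif F) : GLK F) = mat (unif F) 0 0 (unif F) from rfl]
        rw [M3 _ _ _ _ _ _ _ _ (by simpa using L6) (by simpa using L6),
          M3 _ _ _ _ _ _ _ _ (by simp) (by simpa using L6)]
        congr 1 <;> ring
      rw [mul_assoc, e, ← mul_assoc, inv1 _ _ L6]
    rw [Finset.sum_congr rfl (fun s _ => h2 s), Finset.sum_neg_distrib] at h1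
    rw [add_neg_eq_zero] at h1
    exact h1.symm
  -- (3)
  have P3 : ∀ (g : GLK F) (k : ℤ) (u : Kinf F),
      ∑ s : F, φ (g * mat ((unif F) ^ (k + 1)) (u + cst F s * (unif F) ^ k) 0 1) =
        φ (g * mat ((unif F) ^ k) u 0 1) := by
    intro g k u
    rw [← V (g * mat ((unif F) ^ k) u 0 1)]
    refine Finset.sum_congr rfl (fun s _ => ?_)
    rw [mul_assoc, hmul _ _ _ _ _ _ (by simpa using hpk k) (by simpa using L6)]
    congr 2
    congr 1
    · rw [zpow_add_one₀ L6]
    · ring
    · ring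
  -- (4)
  have P4 : ∀ (g : GLK F) (k : ℤ) (N : ℕ) (u : Kinf F),
      ∑ s : Fin N → F, φ (g * mat ((unif F) ^ (k + N))
        (u + ∑ j : Fin N, cst F (s j) * (unif F) ^ (k + (j : ℕ))) 0 1) =
        φ (g * mat ((unif F) ^ k) u 0 1) := by
    intro g k N u
    induction N with
    | zero => simp
    | succ N ih =>
      rw [← ih]
      rw [← (Fin.snocEquiv (fun _ : Fin (N + 1) => F)).sum_comp, Fintype.sum_prod_type_right]
      refine Finset.sum_congr rfl (fun s _ => ?_)
      rw [← P3]
      refine Finset.sum_congr rfl (fun t _ => ?_)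
      congr 2
      congr 1
      · congr 1
        push_cast
        ring
      · rw [Fin.sum_univ_castSucc]
        simp [Fin.snocEquiv, add_assoc]
  refine ⟨P1, P2, P3, P4, ?_, ?_, ?_⟩
  · -- left translations
    intro h
    refine ⟨?_, ?_, ?_⟩
    · intro g z k hz hk
      change φ (h * (g * scal z * k)) = φ (h * g)
      rw [← mul_assoc, ← mul_assoc]
      exact hφ.inv (h * g) z k hz hk
    · intro g
      change φ (h * (g * flipM)) = - φ (h * g)
      rw [← mul_assoc]
      exact hφ.rev (h * g)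
    · intro g
      change φ (h * g) + ∑ u : F, φ (h * (g * mat (cst F u) 1 1 0)) = 0
      have := hφ.sum (h * g)
      simpa only [mul_assoc] using this
  · -- the edge `(π,0;0,1)`
    intro g
    have e : mat (unif F) 0 0 1 * flipM = mat 0 1 1 0 * scal (unif F) := by
      rw [show (flipM : GLK F) = mat 0 1 (unif F) 0 from rfl,
        show (scal (unif F) : GLK F) = mat (unif F) 0 0 (unif F) from rfl]
      rw [M3 _ _ _ _ _ _ _ _ (by simpa using L6) (by simpa using L6),
        M3 _ _ _ _ _ _ _ _ (by simp) (by simpa using L6)]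
      congr 1 <;> ring
    have h1 := hφ.rev (g * mat (unif F) 0 0 1)
    rw [mul_assoc, e, ← mul_assoc, inv1 _ _ L6] at h1
    rw [h1, neg_neg]
  · -- invariance
    intro n hn
    have Q1 : ∀ (k : ℤ) (u : Kinf F) (a : F[X]), HK.val φ k (u + emb F a) = HK.val φ k u := by
      intro k u a
      obtain ⟨γ, hγ, e⟩ := M14 a n
      have h1 := hn γ hγ (mat ((unif F) ^ k) u 0 1)
      rw [e, hmul _ _ _ _ _ _ (by simp) (by simpa using hpk k)] at h1
      have h2 : mat (1 * (unif F) ^ k) (1 * u + emb F a * 1) 0 (1 * 1) =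
          mat ((unif F) ^ k) (u + emb F a) 0 1 := by
        congr 1 <;> ring
      rw [h2] at h1
      exact h1
    have Q2 : ∀ (k : ℤ) (u : Kinf F) (c : F), c ≠ 0 → HK.val φ k (cst F c * u) = HK.val φ k u := by
      intro k u c hc
      obtain ⟨γ, hγ, e⟩ := M15 c 1 n hc one_ne_zero
      have h1 := hn γ hγ (mat ((unif F) ^ k) u 0 1)
      have hc1 : cst F c ≠ 0 := by
        rw [Ne, map_eq_zero]
        exact hc
      rw [e, map_one, hmul _ _ _ _ _ _ (by simpa using hc1) (by simpa using hpk k)] at h1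
      have h3 := P2 1 (cst F c * (unif F) ^ k) (cst F c * u + 0 * 1) (1 * 1) k (cst F c) (by simp)
        (by simp [mul_comm]) (inO_cst c) (by rw [coeff_cst]; exact hc)
      rw [one_mul] at h3
      rw [h3, one_mul] at h1
      have h4 : mat ((unif F) ^ k) ((cst F c * u + 0 * 1) / (1 * 1)) 0 1 =
          mat ((unif F) ^ k) (cst F c * u) 0 1 := by
        congr 1
        ring
      rw [h4] at h1
      exact h1
    have Q3 : ∀ (k : ℤ) (u : Kinf F), k ≤ 1 → HK.val φ k u = HK.val φ k 0 := by
      intro k u hk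
      obtain ⟨a, ha⟩ := L11 u
      have h1 := Q1 k (u - emb F a) a
      rw [sub_add_cancel] at h1
      rw [h1]
      have h2 := P1 1 k (u - emb F a) 0 (by rw [sub_zero]; exact inO_mono hk ha)
      rw [one_mul, one_mul] at h2
      exact h2
    refine ⟨Q1, Q2, Q3, ?_⟩
    intro m
    have h1 := P4 1 (1 - m) m 0
    have h2 : ∀ s : Fin m → F, φ (1 * mat ((unif F) ^ ((1 : ℤ) - m + m))
        (0 + ∑ j : Fin m, cst F (s j) * (unif F) ^ ((1 : ℤ) - m + (j : ℕ))) 0 1) =
        HK.val φ 1 0 := by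
      intro s
      rw [one_mul, show (1 : ℤ) - m + m = 1 by ring]
      exact Q3 1 _ le_rfl
    rw [Finset.sum_congr rfl (fun s _ => h2 s), Finset.sum_const, Finset.card_univ,
      Fintype.card_fun, Fintype.card_fin, one_mul] at h1
    exact h1.symm

end Pool.Agent.HK.H9
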