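import Pool.Agent.Helper8_HK.Stmt3
import Pool.Agent.Helper8_HK.Stmt1

/-! HK, module HKM: Hecke operators on doubly cuspidal Drinfeld modular forms. -/

set_option autoImplicit false

namespace Pool.Agent.HK.H9

open Polynomial

section

variable {F : Type} [Field F] [Fintype F] {C : Type} [NormedField C]

lemma isHolo_zero (ι : Kinf F →+* C) : IsHolo ι (0 : C → C) :=
  fun N ε hε => ⟨0, 1, by simp, fun z _ => by simpa using hε⟩

lemma isHolo_sum (ι : Kinf F →+* C) {X : Type} (S : Finset X) (g : X → C → C)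
    (h : ∀ x ∈ S, IsHolo ι (g x)) : IsHolo ι (∑ x ∈ S, g x) := by
  classical
  induction S using Finset.induction_on with
  | empty => simpa using isHolo_zero ι
  | insert a S ha ih =>
    rw [Finset.sum_insert ha]
    exact (h a (Finset.mem_insert_self a S)).add
      (ih fun x hx => h x (Finset.mem_insert_of_mem hx))

omit [Fintype F] in
lemma slash_zero (ι : Kinf F →+* C) (g : GLK F) : slash ι g (0 : C → C) = 0 := by
  funext z
  simp [slash]

omit [Fintype F] in
lemma slash_sum (ι : Kinf F →+* C) (γ : GLK F) {X : Type} (S : Finset X) (g : X → C → C) :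
    slash ι γ (∑ x ∈ S, g x) = ∑ x ∈ S, slash ι γ (g x) := by
  classical
  induction S using Finset.induction_on with
  | empty => simpa using slash_zero ι γ
  | insert a S ha ih =>
    rw [Finset.sum_insert ha, Finset.sum_insert ha, slash_add, ih]

end

theorem hkm (hSLA : SLAStmt) (hHOL : HOLStmt) (hKHA : KHAStmt) (hCUS : CUSStmt)
    (hCUT : CUTStmt) (hHPM : HPMStmt) (hHST : HSTStmt) (hBNC : BNCStmt) : HKMStmt := by
  intro F _ _ C _ _ _ _ ι ρ hctx n m hn hirr hm f hf
  classical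
  have hok := hctx.ok
  obtain ⟨hfin, hperm, -⟩ := hHPM F n m hn.ne_zero hm
  obtain ⟨-, hS⟩ := hSLA F C ι hok
  obtain ⟨s1, s2, s3, s4, s5, s6⟩ := hS f hf.off
  obtain ⟨B, hB⟩ := hBNC F C ι hok n hn hirr f hf
  obtain ⟨k1, k2, k3⟩ := hKHA F C ι ρ hctx
  obtain ⟨kh1, kh2, kh3, kh4⟩ := k1 f hf.off hf.holo
  set S : Finset (F[X] × F[X] × F[X]) := hfin.toFinset with hSdef
  -- the Hecke operator as a finite sum
  have hsum : heckeC ι n m f = ∑ x ∈ S, slash ι (hmat x) f := by
    funext z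
    rw [Finset.sum_apply]
    exact finsum_mem_eq_finite_toFinset_sum _ hfin
  have hholo : ∀ g : GLK F, IsHolo ι (slash ι g f) := (hHOL F C ι hok f hf.holo).1
  have hHolo : IsHolo ι (heckeC ι n m f) := by
    rw [hsum]
    exact isHolo_sum ι S _ fun x _ => hholo _
  have hOff : Off ι (heckeC ι n m f) := by
    intro z hz
    rw [hsum, Finset.sum_apply]
    exact Finset.sum_eq_zero fun x _ => s1 _ z hz
  have hBdd : BddI ι (S.card * B) (heckeC ι n m f) := by
    intro z hz
    have h0 : 0 ≤ imz ι z := Real.iInf_nonneg fun x => norm_nonneg _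
    rw [hsum, Finset.sum_apply]
    calc ‖∑ x ∈ S, slash ι (hmat x) f z‖ * imz ι z
        ≤ (∑ x ∈ S, ‖slash ι (hmat x) f z‖) * imz ι z :=
          mul_le_mul_of_nonneg_right (norm_sum_le _ _) h0
      _ = ∑ x ∈ S, ‖slash ι (hmat x) f z‖ * imz ι z := Finset.sum_mul _ _ _
      _ ≤ ∑ _x ∈ S, B := Finset.sum_le_sum fun x _ => s6 B (hmat x) hB z hz
      _ = S.card * B := by rw [Finset.sum_const, nsmul_eq_mul]
  have hInv : ∀ γ ∈ Gam0 n, slash ι (toK γ) (heckeC ι n m f) = heckeC ι n m f := by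
    intro γ hγ
    obtain ⟨e, he⟩ := hperm γ hγ
    rw [hsum, slash_sum]
    refine Finset.sum_bij (fun x hx => ((e ⟨x, hfin.mem_toFinset.1 hx⟩ : HIdx n m) :
      F[X] × F[X] × F[X])) ?_ ?_ ?_ ?_
    · intro x hx
      exact hfin.mem_toFinset.2 (e ⟨x, hfin.mem_toFinset.1 hx⟩).2
    · intro x hx y hy hxy
      have h1 := e.injective (Subtype.ext hxy)
      exact congrArg Subtype.val h1
    · intro y hy
      refine ⟨(e.symm ⟨y, hfin.mem_toFinset.1 hy⟩ : HIdx n m), hfin.mem_toFinset.2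
        (e.symm ⟨y, hfin.mem_toFinset.1 hy⟩).2, ?_⟩
      rw [Subtype.coe_eta, Equiv.apply_symm_apply]
    · intro x hx
      obtain ⟨δ, hδ, hx'⟩ := he ⟨x, hfin.mem_toFinset.1 hx⟩
      rw [← s2, hx', s2, hf.modular δ hδ]
  -- the cochain
  have hkap : ∀ T : Finset (F[X] × F[X] × F[X]),
      kap ι ρ (∑ x ∈ T, slash ι (hmat x) f) = ∑ x ∈ T, kap ι ρ (slash ι (hmat x) f) := by
    intro T
    induction T using Finset.induction_on with
    | empty =>
      rw [Finset.sum_empty, Finset.sum_empty]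
      have h := k3 0 f hf.holo
      rwa [zero_smul, zero_smul] at h
    | insert a T ha ih =>
      rw [Finset.sum_insert ha, Finset.sum_insert ha,
        k2 _ _ (hholo _) (isHolo_sum ι T _ fun x _ => hholo _), ih]
  have hkap2 : kap ι ρ (heckeC ι n m f) = hecke n m (kap ι ρ f) := by
    rw [hsum, hkap S]
    funext g
    rw [Finset.sum_apply]
    have h1 : hecke n m (kap ι ρ f) g = ∑ x ∈ S, kap ι ρ f (hmat x * g) :=
      finsum_mem_eq_finite_toFinset_sum _ hfin
    rw [h1]
    exact Finset.sum_congr rfl fun x _ => kh2 _ _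
  refine ⟨hCUT F C ι ρ hctx n hn hirr _ _ hOff hHolo hBdd hInv ?_, hkap2⟩
  rw [hkap2]
  exact hHST F C n m hn hirr hm _ (hCUS F C ι ρ hctx n hn hirr f hf)

end Pool.Agent.HK.H9
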