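import Pool.Agent.Helper8_HK.Stmt3
import Pool.Agent.Helper8_HK.Stmt1

/-! HK, module MFD: the space of doubly cuspidal Drinfeld modular forms is finite dimensional and
the Hecke operators commute. -/

set_option autoImplicit false

namespace Pool.Agent.HK.H9

open Polynomial

lemma finite_degreeLT (F : Type) [Field F] [Fintype F] (m : ℕ) :
    Finite (Polynomial.degreeLT F m) :=
  Finite.of_equiv _ (Polynomial.degreeLTEquiv F m).symm.toEquiv

theorem mfd (hHKM : HKMStmt) (hZER : ZERStmt) (hCOS : COSStmt) (hCAU : CAUStmt) (hKHA : KHAStmt)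
    (hBNC : BNCStmt) (hCUS : CUSStmt) (hHMU : HMUStmt) : MFDStmt := by
  intro F _ _ C _ _ _ _ ι hok n hn hirr
  obtain ⟨ρ, hρ⟩ := IsAlgClosed.exists_pow_nat_eq ((ι (unif F))⁻¹) (n := 2) (by norm_num)
  have hctx : Ctx ι ρ := ⟨hok, hρ⟩
  obtain ⟨k1, k2, k3⟩ := hKHA F C ι ρ hctx
  -- injectivity of the cochain map
  have hinj0 : ∀ f : C → C, IsDC ι n f → (∀ g, kap ι ρ f g = 0) → f = 0 := by
    intro f hf h
    obtain ⟨B, hB⟩ := hBNC F C ι hok n hn hirr f hf
    exact (hCAU F C ι ρ hctx f B hf.off hf.holo hB).2 h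
  have hmem : ∀ m : F[X], m.Monic → ∀ f ∈ dcM ι n, heckeC ι n m f ∈ dcM ι n :=
    fun m hm f hf => (hHKM F C ι ρ hctx n m hn hirr hm f hf).1
  have hkap : ∀ m : F[X], m.Monic → ∀ f ∈ dcM ι n,
      kap ι ρ (heckeC ι n m f) = hecke n m (kap ι ρ f) :=
    fun m hm f hf => (hHKM F C ι ρ hctx n m hn hirr hm f hf).2
  refine ⟨?_, hmem, ?_⟩
  · have hfin := finite_degreeLT F n.natDegree
    let ev : dcM ι n →ₗ[C] (Option (Polynomial.degreeLT F n.natDegree) → C) :=
      { toFun := fun f i => match i with
          | none => kap ι ρ (f : C → C) 1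
          | some x => kap ι ρ (f : C → C) (mat 0 (-1) 1 (emb F (x : F[X])))
        map_add' := by
          intro f f'
          have h := k2 (f : C → C) (f' : C → C) f.2.holo f'.2.holo
          funext i
          cases i
          · exact congrFun h _
          · exact congrFun h _
        map_smul' := by
          intro c f
          have h := k3 c (f : C → C) f.2.holo
          funext i
          cases i
          · exact congrFun h _
          · exact congrFun h _ }
    have hinj : Function.Injective ev := by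
      rw [← LinearMap.ker_eq_bot, LinearMap.ker_eq_bot']
      intro f h0
      obtain ⟨h1, h2, h3, h4⟩ := k1 (f : C → C) f.2.off f.2.holo
      have hI := h3 n f.2.modular
      have ha : kap ι ρ (f : C → C) 1 = 0 := congrFun h0 none
      have hb : ∀ x : F[X], x.degree < n.degree →
          kap ι ρ (f : C → C) (mat 0 (-1) 1 (emb F x)) = 0 := by
        intro x hx
        have hx' : x ∈ Polynomial.degreeLT F n.natDegree := by
          rw [Polynomial.mem_degreeLT, ← Polynomial.degree_eq_natDegree hn.ne_zero]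
          exact hx
        exact congrFun h0 (some ⟨x, hx'⟩)
      have hz : ∀ g, kap ι ρ (f : C → C) g = 0 := by
        apply hZER F C _ h1
        intro γ
        rcases (hCOS F n hn hirr).1 γ with hγ | ⟨δ, hδ, x, hx, e⟩
        · rw [← mul_one (toK γ), hI γ hγ, ha]
        · rw [e, hI δ hδ]
          exact hb x hx
      exact Subtype.ext (hinj0 _ f.2 hz)
    exact Module.Finite.of_injective ev hinj
  · intro m m' hm hm' f hf
    have hC := hCUS F C ι ρ hctx n hn hirr f hf
    have h1 := (hHMU F C n hn (kap ι ρ f) hC.harm hC.invt).1 m m' hm hm'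
    have hA := hmem m hm _ (hmem m' hm' f hf)
    have hB := hmem m' hm' _ (hmem m hm f hf)
    have h2 : kap ι ρ (heckeC ι n m (heckeC ι n m' f)) =
        kap ι ρ (heckeC ι n m' (heckeC ι n m f)) := by
      rw [hkap m hm _ (hmem m' hm' f hf), hkap m' hm' _ (hmem m hm f hf), hkap m' hm' f hf,
        hkap m hm f hf, h1]
    have hD : heckeC ι n m (heckeC ι n m' f) + (-1 : C) • heckeC ι n m' (heckeC ι n m f) = 0 := by
      refine hinj0 _ ((dcM ι n).add_mem hA ((dcM ι n).smul_mem _ hB)) fun g => ?_
      rw [k2 _ _ hA.holo (hB.holo.smul (-1)), k3 _ _ hB.holo, h2]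
      simp
    have h3 : heckeC ι n m (heckeC ι n m' f) - heckeC ι n m' (heckeC ι n m f) = 0 := by
      rw [← hD, neg_one_smul, sub_eq_add_neg]
    exact sub_eq_zero.1 h3

end Pool.Agent.HK.H9
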